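import Mathlib

/-!
# A connected non-tree that is not stackable onto any vertex

The graph `T` is a triangle `0 1 2` with three pendant vertices `3, 4, 5` at `0` and two pendant
vertices `6, 7` at `1`.  We show that no sequence of cup stacking moves starting with one cup on
every vertex puts all the cups on one vertex.  The set of the 1127 reachable configurations is
stored in a search tree, and the kernel checks that it is closed under moves.
-/

namespace Pool.Agent.Results.MP_75ab16_co.NonTreeUnstackable

open SimpleGraph

/-- A cup stacking move `u ↦ v` from the configuration `C` to the configuration `C'`. -/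
def Move {V : Type} [DecidableEq V] (G : SimpleGraph V) (C C' : V → ℕ) : Prop :=
  ∃ u v : V, 1 ≤ C u ∧ 1 ≤ C v ∧ G.dist u v = C u ∧
    ∀ w, C' w = if w = u then 0 else if w = v then C u + C v else C w

/-- `G` is `r`-stackable: some finite sequence of moves from the configuration with one cup on
every vertex ends with all cups on `r`. -/
def RStackable {V : Type} [DecidableEq V] [Fintype V] (G : SimpleGraph V) (r : V) : Prop :=
  Relation.ReflTransGen (Move G) (fun _ => 1) (fun w => if w = r then Fintype.card V else 0)

section dist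

variable {V : Type} (G : SimpleGraph V) (D : V → V → ℕ)

theorem dist_eq (h0 : ∀ u, D u u = 0) (h3 : ∀ u v, D u v = 0 → u = v)
    (h1 : ∀ u v w, G.Adj v w → D u w ≤ D u v + 1)
    (h2 : ∀ u v, D u v ≠ 0 → ∃ w, G.Adj v w ∧ D u w + 1 = D u v) :
    (∀ u v, G.Reachable u v) ∧ ∀ u v, G.dist u v = D u v := by
  have hex : ∀ (k : ℕ) (u v : V), D u v = k → ∃ p : G.Walk u v, p.length = k := by
    intro k
    induction k with
    | zero =>
      intro u v h
      have := h3 u v h
      subst this
      exact ⟨Walk.nil, rfl⟩
    | succ k ih =>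
      intro u v h
      obtain ⟨w, hw, hd⟩ := h2 u v (by omega)
      obtain ⟨p, hp⟩ := ih u w (by omega)
      exact ⟨p.concat hw.symm, by simp [hp]⟩
  have hle : ∀ (u v : V) (p : G.Walk v u), D u v ≤ p.length := by
    intro u v p
    induction p with
    | nil => simp [h0]
    | @cons a b c h p ih =>
      have := h1 c b a h.symm
      simp only [Walk.length_cons]
      omega
  refine ⟨fun u v => ?_, fun u v => ?_⟩
  · obtain ⟨p, _⟩ := hex _ u v rfl
    exact ⟨p⟩
  · obtain ⟨p, hp⟩ := hex _ u v rfl
    apply le_antisymm
    · rw [← hp]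
      exact G.dist_le p
    · obtain ⟨q, hq⟩ := (show G.Reachable v u from ⟨p.reverse⟩).exists_walk_length_eq_dist
      rw [G.dist_comm, ← hq]
      exact hle u v q

end dist

/-- The edges of the graph. -/
def edges : Finset (Sym2 (Fin 8)) :=
  {s(0, 1), s(1, 2), s(2, 0), s(0, 3), s(0, 4), s(0, 5), s(1, 6), s(1, 7)}

/-- The graph: a triangle `0 1 2` with pendant vertices `3, 4, 5` at `0` and `6, 7` at `1`. -/
def T : SimpleGraph (Fin 8) := SimpleGraph.fromEdgeSet (edges : Set (Sym2 (Fin 8)))

instance : DecidableRel T.Adj := fun a b =>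
  decidable_of_iff (s(a, b) ∈ edges ∧ a ≠ b) (by simp [T])

/-- The distance table of the graph. -/
def D (u v : ℕ) : ℕ :=
  (0x233321220333212330222213320222133220221222220111122210122111110 >>> (4 * (8 * u + v))) % 16

/-- Number of cups on the vertex `i` in the configuration with code `c`. -/
def dec (c i : ℕ) : ℕ := (c >>> (4 * i)) % 16

/-- Binary search trees. -/
inductive BT
  | l : BT
  | n : BT → ℕ → BT → BT

/-- Membership in a search tree. -/
def BT.mem : BT → ℕ → Bool
  | .l, _ => false
  | .n a k b, x => bif Nat.blt x k then a.mem x else bif Nat.blt k x then b.mem x else true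

/-- All keys of the tree satisfy `p`. -/
def BT.all : BT → (ℕ → Bool) → Bool
  | .l, _ => true
  | .n a k b, p => a.all p && p k && b.all p

theorem BT.all_of_mem (t : BT) (p : ℕ → Bool) (h : t.all p = true) (x : ℕ)
    (hx : t.mem x = true) : p x = true := by
  induction t with
  | l => simp [BT.mem] at hx
  | n a k b iha ihb =>
    simp only [BT.all, Bool.and_eq_true] at h
    simp only [BT.mem] at hx
    cases h1 : Nat.blt x k with
    | true =>
      rw [h1] at hx
      exact iha h.1.1 hx
    | false =>
      rw [h1] at hx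
      simp only [cond_false] at hx
      cases h2 : Nat.blt k x with
      | true =>
        rw [h2] at hx
        exact ihb h.2 hx
      | false =>
        have h1' : ¬ x < k := by
          intro hh
          have : Nat.blt x k = true := by simpa [Nat.blt_eq] using hh
          rw [this] at h1
          exact absurd h1 (by simp)
        have h2' : ¬ k < x := by
          intro hh
          have : Nat.blt k x = true := by simpa [Nat.blt_eq] using hh
          rw [this] at h2
          exact absurd h2 (by simp)
        have : x = k := by omega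
        rw [this]
        exact h.1.2

/-- Codes of all reachable configurations. -/
def reach : BT := open BT in
  (n (n (n (n (n (n (n (n (n (n (n l 53 l) 68 l) 308 (n l 4148 l)) 4163 (n (n l 4403 l) 16388 (n l
  16643 l))) 65588 (n (n (n (n l 65603 l) 65843 l) 69683 (n l 69698 l)) 69728 (n (n l 69938 l)
  69968 (n l 70448 l)))) 77888 (n (n (n (n (n l 78128 l) 81923 l) 81968 (n l 82178 l)) 82208 (n (n
  l 82688 l) 90368 (n l 94208 l))) 200768 (n (n (n (n l 201008 l) 213248 l) 262148 (n l 262403 l))
  266243 (n (n l 266288 l) 266498 (n l 266528 l))))) 267008 (n (n (n (n (n (n l 274688 l) 278528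
  l) 397568 (n l 462848 l)) 1048628 (n (n l 1048643 l) 1048883 (n l 1052723 l))) 1052738 (n (n (n
  (n l 1052768 l) 1052978 l) 1053008 (n l 1053488 l)) 1060928 (n (n l 1061168 l) 1064963 (n l
  1065008 l)))) 1065218 (n (n (n (n (n l 1065248 l) 1065728 l) 1073408 (n l 1077248 l)) 1114163 (n
  (n l 1114178 l) 1114208 (n l 1114418 l))) 1114448 (n (n (n l 1114928 l) 1118258 (n l 1118273 l))
  1118288 (n (n l 1118513 l) 1118528 (n l 1118768 l)))))) 1122368 (n (n (n (n (n (n (n l 1122608
  l) 1126448 l) 1130498 (n l 1130528 l)) 1130753 (n (n l 1131008 l) 1134848 (n l 1138688 l)))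
  1183808 (n (n (n (n l 1184048 l) 1196288 l) 1245248 (n l 1245488 l)) 1249328 (n (n l 1261568 l)
  1310723 (n l 1310768 l)))) 1310978 (n (n (n (n (n l 1311008 l) 1311488 l) 1314818 (n l 1314848
  l)) 1315073 (n (n l 1315328 l) 1319168 (n l 1323008 l))) 1380608 (n (n (n l 1442048 l) 1445888
  (n l 1507328 l)) 2166848 (n (n l 2167088 l) 2179328 (n l 2363648 l))))) 3149888 (n (n (n (n (n
  (n l 3150128 l) 3162368 l) 3211328 (n l 3211568 l)) 3215408 (n (n l 3227648 l) 3408128 (n l
  3411968 l))) 4194308 (n (n (n (n l 4194563 l) 4198403 l) 4198448 (n l 4198658 l)) 4198688 (n (n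
  l 4199168 l) 4206848 (n l 4210688 l)))) 4259843 (n (n (n (n (n l 4259888 l) 4260098 l) 4260128
  (n l 4260608 l)) 4263938 (n (n l 4263968 l) 4264193 (n l 4264448 l))) 4268288 (n (n (n l 4272128
  l) 4329728 (n l 4391168 l)) 4395008 (n (n l 4456448 l) 5312768 (n l 6295808 l))))))) 6357248 (n
  (n (n (n (n (n (n (n l 6361088 l) 7344128 l) 7405568 (n l 16777223 l)) 16777253 (n (n l 16777268
  l) 16777478 (n l 16777508 l))) 16777988 (n (n (n (n l 16781318 l) 16781348 l) 16781363 (n l
  16781573 l)) 16781603 (n (n l 16782083 l) 16789508 (n l 16789763 l)))) 16793603 (n (n (n (n (n l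
  16842758 l) 16842788 l) 16842803 (n l 16843013 l)) 16843043 (n (n l 16843523 l) 16846853 (n l
  16846883 l))) 16846898 (n (n (n (n l 16846928 l) 16847108 l) 16847138 (n l 16847168 l)) 16847618
  (n (n l 16847648 l) 16848128 (n l 16855043 l))))) 16855088 (n (n (n (n (n (n l 16855298 l)
  16855328 l) 16855808 (n l 16859138 l)) 16859168 (n (n l 16859408 l) 16859648 (n l 16863488 l)))
  16867328 (n (n (n (n l 16973828 l) 16974083 l) 16977923 (n l 16977968 l)) 16978178 (n (n l
  16978208 l) 16978688 (n l 16986368 l)))) 16990208 (n (n (n (n (n l 17039363 l) 17043458 l)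
  17043488 (n l 17043728 l)) 17043968 (n (n l 17051648 l) 17109248 (n l 17174528 l))) 17825798 (n
  (n (n l 17825828 l) 17825843 (n l 17826053 l)) 17826083 (n (n l 17826563 l) 17829893 (n l
  17829923 l)))))) 17829938 (n (n (n (n (n (n (n l 17829968 l) 17830148 l) 17830178 (n l 17830208
  l)) 17830658 (n (n l 17830688 l) 17831168 (n l 17838083 l))) 17838128 (n (n (n (n l 17838338 l)
  17838368 l) 17838848 (n l 17842178 l)) 17842208 (n (n l 17842448 l) 17842688 (n l 17846528 l))))
  17850368 (n (n (n (n (n l 17891333 l) 17891363 l) 17891378 (n l 17891408 l)) 17891588 (n (n l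
  17891618 l) 17891648 (n l 17892098 l))) 17892128 (n (n (n l 17892608 l) 17895428 (n l 17895458
  l)) 17895473 (n (n l 17895488 l) 17895683 (n l 17895713 l))))) 17895728 (n (n (n (n (n (n l
  17895968 l) 17896193 l) 17896448 (n l 17899568 l)) 17899808 (n (n l 17900288 l) 17903618 (n l
  17903648 l))) 17903873 (n (n (n (n l 17904128 l) 17907713 l) 17907728 (n l 17907968 l)) 17911808
  (n (n l 17961008 l) 17961248 (n l 17961728 l)))) 17969408 (n (n (n (n (n l 17973248 l) 18022403
  l) 18022448 (n l 18022658 l)) 18022688 (n (n l 18023168 l) 18026498 (n l 18026528 l))) 18026753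
  (n (n (n l 18027008 l) 18030848 (n l 18034688 l)) 18087938 (n (n l 18087968 l) 18088208 (n l
  18088448 l)))))))) 18092033 (n (n (n (n (n (n (n (n (n l 18092048 l) 18092288 l) 18096128 (n l
  18153728 l)) 18157568 (n (n l 18219008 l) 18944048 (n l 18944288 l))) 18944768 (n (n (n (n l
  18952448 l) 18956288 l) 19075328 (n l 19140608 l)) 19922948 (n (n l 19923203 l) 19927043 (n l
  19927088 l)))) 19927298 (n (n (n (n (n l 19927328 l) 19927808 l) 19935488 (n l 19939328 l))
  19988483 (n (n l 19988528 l) 19988738 (n l 19988768 l))) 19989248 (n (n (n (n l 19992578 l)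
  19992608 l) 19992833 (n l 19993088 l)) 19996928 (n (n l 20000768 l) 20058368 (n l 20119808
  l))))) 20123648 (n (n (n (n (n (n l 20185088 l) 20971523 l) 20975618 (n l 20975648 l)) 20975888
  (n (n l 20976128 l) 20983808 (n l 21037058 l))) 21037088 (n (n (n (n l 21037328 l) 21037568 l)
  21041153 (n l 21041168 l)) 21041408 (n (n l 21045248 l) 21106688 (n l 21168128 l)))) 22024448 (n
  (n (n (n (n l 22085888 l) 22089728 l) 23072768 (n l 23134208 l)) 33636608 (n (n l 33820928 l)
  34619648 (n l 34684928 l))) 34865408 (n (n (n l 34869248 l) 37753088 (n l 37814528 l)) 37818368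
  (n (n l 50331653 l) 50331908 (n l 50335748 l)))))) 50336003 (n (n (n (n (n (n (n l 50397188 l)
  50397443 l) 50401283 (n l 50401328 l)) 50401538 (n (n l 50401568 l) 50402048 (n l 50409728 l)))
  50413568 (n (n (n (n l 50532608 l) 50597888 l) 51380228 (n l 51380483 l)) 51384323 (n (n l
  51384368 l) 51384578 (n l 51384608 l)))) 51385088 (n (n (n (n (n l 51392768 l) 51396608 l)
  51445763 (n l 51445808 l)) 51446018 (n (n l 51446048 l) 51446528 (n l 51449858 l))) 51449888 (n
  (n (n l 51450113 l) 51450368 (n l 51454208 l)) 51458048 (n (n l 51515648 l) 51577088 (n l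
  51580928 l))))) 51642368 (n (n (n (n (n (n l 52498688 l) 53481728 l) 53543168 (n l 53547008 l))
  54530048 (n (n l 54591488 l) 67108868 (n l 67109123 l))) 67112963 (n (n (n (n l 67113008 l)
  67113218 l) 67113248 (n l 67113728 l)) 67121408 (n (n l 67125248 l) 67174403 (n l 67174448 l))))
  67174658 (n (n (n (n (n l 67174688 l) 67175168 l) 67178498 (n l 67178528 l)) 67178753 (n (n l
  67179008 l) 67182848 (n l 67186688 l))) 67244288 (n (n (n l 67305728 l) 67309568 (n l 67371008
  l)) 68157443 (n (n l 68157488 l) 68157698 (n l 68157728 l))))))) 68158208 (n (n (n (n (n (n (n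
  (n l 68161538 l) 68161568 l) 68161793 (n l 68162048 l)) 68165888 (n (n l 68169728 l) 68222978 (n
  l 68223008 l))) 68223233 (n (n (n (n l 68223488 l) 68288768 l) 68354048 (n l 69210368 l))
  69271808 (n (n l 70254848 l) 70258688 (n l 70320128 l)))) 71303168 (n (n (n (n (n l 83955968 l)
  84939008 l) 85000448 (n l 85004288 l)) 100667648 (n (n l 100729088 l) 100732928 (n l 101712128
  l))) 101715968 (n (n (n (n l 101777408 l) 117440768 l) 117444608 (n l 117506048 l)) 118489088 (n
  (n l 268435463 l) 268435493 (n l 268435508 l))))) 268435718 (n (n (n (n (n (n l 268435748 l)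
  268436228 l) 268439558 (n l 268439588 l)) 268439603 (n (n l 268439813 l) 268439843 (n l
  268440323 l))) 268447748 (n (n (n (n l 268448003 l) 268451843 l) 268500998 (n l 268501028 l))
  268501043 (n (n l 268501253 l) 268501283 (n l 268501763 l)))) 268505093 (n (n (n (n (n l
  268505123 l) 268505138 l) 268505168 (n l 268505348 l)) 268505378 (n (n l 268505408 l) 268505858
  (n l 268505888 l))) 268506368 (n (n (n l 268513283 l) 268513328 (n l 268513538 l)) 268513568 (n
  (n l 268514048 l) 268517378 (n l 268517408 l)))))) 268517648 (n (n (n (n (n (n (n l 268517888 l)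
  268521728 l) 268525568 (n l 268632068 l)) 268632323 (n (n l 268636163 l) 268636208 (n l
  268636418 l))) 268636448 (n (n (n (n l 268636928 l) 268644608 l) 268648448 (n l 268697603 l))
  268701698 (n (n l 268701728 l) 268701968 (n l 268702208 l)))) 268709888 (n (n (n (n (n l
  268767488 l) 268832768 l) 269484038 (n l 269484068 l)) 269484083 (n (n l 269484293 l) 269484323
  (n l 269484803 l))) 269488133 (n (n (n l 269488163 l) 269488178 (n l 269488208 l)) 269488388 (n
  (n l 269488418 l) 269488448 (n l 269488898 l))))) 269488928 (n (n (n (n (n (n l 269489408 l)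
  269496323 l) 269496368 (n l 269496578 l)) 269496608 (n (n l 269497088 l) 269500418 (n l
  269500448 l))) 269500688 (n (n (n (n l 269500928 l) 269504768 l) 269508608 (n l 269549573 l))
  269549603 (n (n l 269549618 l) 269549648 (n l 269549828 l)))) 269549858 (n (n (n (n (n l
  269549888 l) 269550338 l) 269550368 (n l 269550848 l)) 269553668 (n (n l 269553698 l) 269553713
  (n l 269553728 l))) 269553923 (n (n (n l 269553953 l) 269553968 (n l 269554208 l)) 269554433 (n
  (n l 269554688 l) 269557808 (n l 269558048 l))))))))) 269558528 (n (n (n (n (n (n (n (n (n (n l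
  269561858 l) 269561888 l) 269562113 (n l 269562368 l)) 269565953 (n (n l 269565968 l) 269566208
  (n l 269570048 l))) 269619248 (n (n (n (n l 269619488 l) 269619968 l) 269627648 (n l 269631488
  l)) 269680643 (n (n l 269680688 l) 269680898 (n l 269680928 l)))) 269681408 (n (n (n (n (n l
  269684738 l) 269684768 l) 269684993 (n l 269685248 l)) 269689088 (n (n l 269692928 l) 269746178
  (n l 269746208 l))) 269746448 (n (n (n (n l 269746688 l) 269750273 l) 269750288 (n l 269750528
  l)) 269754368 (n (n l 269811968 l) 269815808 (n l 269877248 l))))) 270602288 (n (n (n (n (n (n l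
  270602528 l) 270603008 l) 270610688 (n l 270614528 l)) 270733568 (n (n l 270798848 l) 271581188
  (n l 271581443 l))) 271585283 (n (n (n (n l 271585328 l) 271585538 l) 271585568 (n l 271586048
  l)) 271593728 (n (n l 271597568 l) 271646723 (n l 271646768 l)))) 271646978 (n (n (n (n (n l
  271647008 l) 271647488 l) 271650818 (n l 271650848 l)) 271651073 (n (n l 271651328 l) 271655168
  (n l 271659008 l))) 271716608 (n (n (n l 271778048 l) 271781888 (n l 271843328 l)) 272629763 (n
  (n l 272633858 l) 272633888 (n l 272634128 l)))))) 272634368 (n (n (n (n (n (n (n l 272642048 l)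
  272695298 l) 272695328 (n l 272695568 l)) 272695808 (n (n l 272699393 l) 272699408 (n l
  272699648 l))) 272703488 (n (n (n (n l 272764928 l) 272826368 l) 273682688 (n l 273744128 l))
  273747968 (n (n l 274731008 l) 274792448 (n l 285212678 l)))) 285212693 (n (n (n (n (n l
  285212708 l) 285212933 l) 285212948 (n l 285213188 l)) 285216773 (n (n l 285216788 l) 285216803
  (n l 285217028 l))) 285217043 (n (n (n l 285217283 l) 285224963 (n l 285278213 l)) 285278228 (n
  (n l 285278243 l) 285278468 (n l 285278483 l))))) 285278723 (n (n (n (n (n (n l 285282308 l)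
  285282323 l) 285282338 (n l 285282368 l)) 285282563 (n (n l 285282578 l) 285282608 (n l
  285282818 l))) 285283088 (n (n (n (n l 285283328 l) 285290498 l) 285290528 (n l 285290768 l))
  285291008 (n (n l 285298688 l) 285409283 (n l 285413378 l)))) 285413408 (n (n (n (n (n l
  285413648 l) 285413888 l) 285421568 (n l 285544448 l)) 286261253 (n (n l 286261268 l) 286261283
  (n l 286261508 l))) 286261523 (n (n (n l 286261763 l) 286265348 (n l 286265363 l)) 286265378 (n
  (n l 286265408 l) 286265603 (n l 286265618 l))))))) 286265648 (n (n (n (n (n (n (n (n l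
  286265858 l) 286266128 l) 286266368 (n l 286273538 l)) 286273568 (n (n l 286273808 l) 286274048
  (n l 286281728 l))) 286326788 (n (n (n (n l 286326803 l) 286326818 l) 286326848 (n l 286327043
  l)) 286327058 (n (n l 286327088 l) 286327298 (n l 286327568 l)))) 286327808 (n (n (n (n (n l
  286330883 l) 286330898 l) 286330913 (n l 286330928 l)) 286331138 (n (n l 286331153 l) 286331168
  (n l 286331393 l))) 286331408 (n (n (n (n l 286331648 l) 286335008 l) 286335248 (n l 286335488
  l)) 286339073 (n (n l 286339088 l) 286339328 (n l 286343168 l))))) 286396448 (n (n (n (n (n (n l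
  286396688 l) 286396928 l) 286404608 (n l 286457858 l)) 286457888 (n (n l 286458128 l) 286458368
  (n l 286461953 l))) 286461968 (n (n (n (n l 286462208 l) 286466048 l) 286527488 (n l 286588928
  l)) 287379488 (n (n l 287379728 l) 287379968 (n l 287387648 l)))) 287510528 (n (n (n (n (n l
  288358403 l) 288362498 l) 288362528 (n l 288362768 l)) 288363008 (n (n l 288370688 l) 288423938
  (n l 288423968 l))) 288424208 (n (n (n l 288424448 l) 288428033 (n l 288428048 l)) 288428288 (n
  (n l 288432128 l) 288493568 (n l 288555008 l)))))) 289476608 (n (n (n (n (n (n (n l 290459648 l)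
  290521088 l) 301989893 (n l 301990148 l)) 301993988 (n (n l 301994243 l) 302055428 (n l
  302055683 l))) 302059523 (n (n (n (n l 302059778 l) 302060288 l) 302067968 (n l 302190848 l))
  303038468 (n (n l 303038723 l) 303042563 (n l 303042818 l)))) 303043328 (n (n (n (n (n l
  303051008 l) 303104003 l) 303104258 (n l 303104768 l)) 303108098 (n (n l 303108353 l) 303108608
  (n l 303112448 l))) 303116288 (n (n (n l 303173888 l) 303235328 (n l 303239168 l)) 304156928 (n
  (n l 305139968 l) 305201408 (n l 305205248 l))))) 318767108 (n (n (n (n (n (n l 318771203 l)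
  318832643 l) 318836738 (n l 318836768 l)) 318837008 (n (n l 318837248 l) 318844928 (n l
  318967808 l))) 319815683 (n (n (n (n l 319819778 l) 319819808 l) 319820048 (n l 319820288 l))
  319827968 (n (n l 319881218 l) 319881248 (n l 319881488 l)))) 319881728 (n (n (n (n (n l
  319885313 l) 319885328 l) 319885568 (n l 319889408 l)) 319950848 (n (n l 320012288 l) 320933888
  (n l 321916928 l))) 321978368 (n (n (n l 335544323 l) 335548418 (n l 335548448 l)) 335548688 (n
  (n l 335548928 l) 335556608 (n l 335609858 l)))))))) 335609888 (n (n (n (n (n (n (n (n (n l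
  335610128 l) 335610368 l) 335613953 (n l 335613968 l)) 335614208 (n (n l 335618048 l) 335679488
  (n l 335740928 l))) 336592898 (n (n (n (n l 336592928 l) 336593168 l) 336593408 (n l 336596993
  l)) 336597008 (n (n l 336597248 l) 336601088 (n l 336658433 l)))) 336658448 (n (n (n (n (n l
  336658688 l) 336662528 l) 336723968 (n l 337645568 l)) 337707008 (n (n l 338690048 l) 352325888
  (n l 352387328 l))) 352391168 (n (n (n (n l 353370368 l) 353374208 l) 353435648 (n l 369102848
  l)) 369164288 (n (n l 370147328 l) 385875968 (n l 536953088 l))))) 537137408 (n (n (n (n (n (n l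
  537936128 l) 538001408 l) 538181888 (n l 538185728 l)) 541069568 (n (n l 541131008 l) 541134848
  (n l 553648133 l))) 553648388 (n (n (n (n l 553652228 l) 553652483 l) 553713668 (n l 553713923
  l)) 553717763 (n (n l 553718018 l) 553718528 (n l 553726208 l)))) 553849088 (n (n (n (n (n l
  554696708 l) 554696963 l) 554700803 (n l 554701058 l)) 554701568 (n (n l 554709248 l) 554762243
  (n l 554762498 l))) 554763008 (n (n (n l 554766338 l) 554766593 (n l 554766848 l)) 554770688 (n
  (n l 554774528 l) 554832128 (n l 554893568 l)))))) 554897408 (n (n (n (n (n (n (n l 555815168 l)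
  556798208 l) 556859648 (n l 556863488 l)) 587272448 (n (n l 588255488 l) 588316928 (n l
  588320768 l))) 603984128 (n (n (n (n l 604045568 l) 604049408 l) 605028608 (n l 605032448 l))
  605093888 (n (n l 805306373 l) 805306628 (n l 805310468 l)))) 805310723 (n (n (n (n (n l
  805371908 l) 805372163 l) 805376003 (n l 805376048 l)) 805376258 (n (n l 805376288 l) 805376768
  (n l 805384448 l))) 805388288 (n (n (n l 805507328 l) 805572608 (n l 806354948 l)) 806355203 (n
  (n l 806359043 l) 806359088 (n l 806359298 l))))) 806359328 (n (n (n (n (n (n l 806359808 l)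
  806367488 l) 806371328 (n l 806420483 l)) 806420528 (n (n l 806420738 l) 806420768 (n l
  806421248 l))) 806424578 (n (n (n (n l 806424608 l) 806424833 l) 806425088 (n l 806428928 l))
  806432768 (n (n l 806490368 l) 806551808 (n l 806555648 l)))) 806617088 (n (n (n (n (n l
  807473408 l) 808456448 l) 808517888 (n l 808521728 l)) 809504768 (n (n l 809566208 l) 822083588
  (n l 822087683 l))) 822149123 (n (n (n l 822153218 l) 822153248 (n l 822153488 l)) 822153728 (n
  (n l 822161408 l) 822284288 (n l 823132163 l))))))) 823136258 (n (n (n (n (n (n (n (n l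
  823136288 l) 823136528 l) 823136768 (n l 823144448 l)) 823197698 (n (n l 823197728 l) 823197968
  (n l 823198208 l))) 823201793 (n (n (n (n l 823201808 l) 823202048 l) 823205888 (n l 823267328
  l)) 823328768 (n (n l 824250368 l) 825233408 (n l 825294848 l)))) 838930688 (n (n (n (n (n l
  839913728 l) 839975168 l) 839979008 (n l 855707648 l)) 856690688 (n (n l 856752128 l) 872419328
  (n l 872480768 l))) 873463808 (n (n (n (n l 1073741828 l) 1073742083 l) 1073745923 (n l
  1073745968 l)) 1073746178 (n (n l 1073746208 l) 1073746688 (n l 1073754368 l))))) 1073758208 (n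
  (n (n (n (n (n l 1073807363 l) 1073807408 l) 1073807618 (n l 1073807648 l)) 1073808128 (n (n l
  1073811458 l) 1073811488 (n l 1073811713 l))) 1073811968 (n (n (n (n l 1073815808 l) 1073819648
  l) 1073877248 (n l 1073938688 l)) 1073942528 (n (n l 1074003968 l) 1074790403 (n l 1074790448
  l)))) 1074790658 (n (n (n (n (n l 1074790688 l) 1074791168 l) 1074794498 (n l 1074794528 l))
  1074794753 (n (n l 1074795008 l) 1074798848 (n l 1074802688 l))) 1074855938 (n (n (n l
  1074855968 l) 1074856193 (n l 1074856448 l)) 1074921728 (n (n l 1074987008 l) 1075843328 (n l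
  1075904768 l)))))) 1076887808 (n (n (n (n (n (n (n l 1076891648 l) 1076953088 l) 1077936128 (n l
  1090519043 l)) 1090523138 (n (n l 1090523168 l) 1090523408 (n l 1090523648 l))) 1090531328 (n (n
  (n (n l 1090584578 l) 1090584608 l) 1090584848 (n l 1090585088 l)) 1090588673 (n (n l 1090588688
  l) 1090588928 (n l 1090592768 l)))) 1090654208 (n (n (n (n (n l 1090715648 l) 1091567618 l)
  1091567648 (n l 1091567888 l)) 1091568128 (n (n l 1091571713 l) 1091571728 (n l 1091571968 l)))
  1091575808 (n (n (n l 1091633153 l) 1091633168 (n l 1091633408 l)) 1091637248 (n (n l 1091698688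
  l) 1092620288 (n l 1092681728 l))))) 1093664768 (n (n (n (n (n (n l 1107300608 l) 1107362048 l)
  1107365888 (n l 1108345088 l)) 1108348928 (n (n l 1108410368 l) 1124077568 (n l 1124139008 l)))
  1125122048 (n (n (n (n l 1140850688 l) 1342247168 l) 1343230208 (n l 1343291648 l)) 1343295488
  (n (n l 1358958848 l) 1359020288 (n l 1359024128 l)))) 1360003328 (n (n (n (n (n l 1360007168 l)
  1360068608 l) 1610617088 (n l 1610678528 l)) 1610682368 (n (n l 1611661568 l) 1611665408 (n l
  1611726848 l))) 1627394048 (n (n (n l 1627455488 l) 1628438528 (n l 1879048448 l)) 1879052288 (n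
  (n l 1879113728 l) 1880096768 (n l 1895825408 l))))))))))

/-- The code after the move `u ↦ v`. -/
def next (c u v : ℕ) : ℕ := c - dec c u <<< (4 * u) + dec c u <<< (4 * v)

/-- Check one possible move. -/
def checkMove (c u v : ℕ) : Bool :=
  bif Nat.blt 0 (dec c v) && Nat.beq (D u v) (dec c u) && Nat.blt 0 (dec c u) then
    reach.mem (next c u v) &&
      (List.range 8).all (fun i => Nat.beq (dec (next c u v) i)
        (bif Nat.beq i u then 0 else bif Nat.beq i v then dec c u + dec c v else dec c i))
  else true

/-- Check all moves from a code, and that not all cups are on one vertex. -/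
def check (c : ℕ) : Bool :=
  (List.range 8).all (fun u => (List.range 8).all (fun v => checkMove c u v)) &&
    (List.range 8).all (fun u => !(Nat.beq (dec c u) 8))

theorem reach_closed : reach.all check = true := by decide +kernel

theorem reach_start : reach.mem 0x11111111 = true := by decide +kernel

theorem dist_T : (∀ u v : Fin 8, T.Reachable u v) ∧ ∀ u v : Fin 8, T.dist u v = D u v := by
  refine dist_eq T (fun u v => D u v) ?_ ?_ ?_ ?_
  · decide +kernel
  · decide +kernel
  · decide +kernel
  · decide +kernel

theorem inv (C : Fin 8 → ℕ) (h : Relation.ReflTransGen (Move T) (fun _ => 1) C) :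
    ∃ c, reach.mem c = true ∧ ∀ i : Fin 8, C i = dec c i := by
  induction h with
  | refl => exact ⟨0x11111111, reach_start, by decide⟩
  | tail _ hm ih =>
    obtain ⟨c, hc, hC⟩ := ih
    obtain ⟨u, v, hu, hv, hd, hw⟩ := hm
    have hck := reach.all_of_mem check reach_closed c hc
    rw [check, Bool.and_eq_true, List.all_eq_true] at hck
    have h1 := hck.1 u (by simp)
    rw [List.all_eq_true] at h1
    have h2 := h1 v (by simp)
    rw [dist_T.2] at hd
    rw [hC] at hu hv
    rw [hC] at hd
    have c1 : Nat.blt 0 (dec c v) = true := by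
      rw [Nat.blt_eq]; omega
    have c2 : Nat.blt 0 (dec c u) = true := by
      rw [Nat.blt_eq]; omega
    have c3 : Nat.beq (D u v) (dec c u) = true := by
      rw [Nat.beq_eq]; exact hd
    rw [checkMove, c1, c2, c3] at h2
    simp only [Bool.and_self, cond_true, Bool.and_eq_true] at h2
    refine ⟨next c u v, h2.1, fun i => ?_⟩
    have h3 := h2.2
    rw [List.all_eq_true] at h3
    have h4 := h3 i (by simp)
    rw [Nat.beq_eq] at h4
    rw [hw, h4, hC, hC, hC]
    by_cases e1 : i = u
    · subst e1
      simp
    · have e1' : Nat.beq (i : ℕ) (u : ℕ) = false := by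
        rw [← Bool.not_eq_true, Nat.beq_eq]
        exact fun hh => e1 (Fin.ext hh)
      rw [if_neg e1, e1']
      by_cases e2 : i = v
      · subst e2
        simp
      · have e2' : Nat.beq (i : ℕ) (v : ℕ) = false := by
          rw [← Bool.not_eq_true, Nat.beq_eq]
          exact fun hh => e2 (Fin.ext hh)
        rw [if_neg e2, e2']
        rfl

/-- **Answer to Q1 (yes).** There is a connected graph that is not a tree and is not
`r`-stackable for any vertex `r`. -/
theorem result : ∃ (n : ℕ) (G : SimpleGraph (Fin n)),
    G.Connected ∧ ¬ G.IsAcyclic ∧ ¬ G.IsTree ∧ ∀ r : Fin n, ¬ RStackable G r := by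
  have hc : T.Connected := ⟨dist_T.1⟩
  have hnt : ¬ T.IsTree := by
    intro h
    have := h.card_edgeFinset
    have h2 : T.edgeFinset.card + 1 ≠ Fintype.card (Fin 8) := by decide +kernel
    exact h2 this
  refine ⟨8, T, hc, fun h => hnt ⟨hc, h⟩, hnt, fun r h => ?_⟩
  obtain ⟨c, hcm, hC⟩ := inv _ h
  have hck := reach.all_of_mem check reach_closed c hcm
  rw [check, Bool.and_eq_true] at hck
  have h1 := hck.2
  rw [List.all_eq_true] at h1
  have h2 := h1 r (by simp)
  have h3 := hC r
  simp only [if_true, Fintype.card_fin] at h3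
  rw [← h3] at h2
  exact absurd h2 (by decide)

end Pool.Agent.Results.MP_75ab16_co.NonTreeUnstackable
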